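import Pool.Agent.Helper80.PMMain

open Pool.Agent.Helper80.PM

namespace Pool.Agent.Results.MP_dc204c_gt.PseudocompactMinimalZm

universe u

/-- **Negative answer to Q1 and Q2.** (1) Every pseudocompact minimal group satisfying `Z_m`
satisfies `Z`. (2) Every pseudocompact totally minimal group satisfying `Z_m` satisfies `Z`.
(3) In fact every pseudocompact minimal group satisfying `Z_m` is a compact Lie group. -/
theorem result :
    (∀ (G : Type u) [Group G] [TopologicalSpace G] [IsTopologicalGroup G] [T2Space G],
      PseudoCompact G → MinimalGroup G → PropZm G → PropZ G) ∧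
    (∀ (G : Type u) [Group G] [TopologicalSpace G] [IsTopologicalGroup G] [T2Space G],
      PseudoCompact G → TotallyMinimalGroup G → PropZm G → PropZ G) ∧
    (∀ (G : Type u) [Group G] [TopologicalSpace G] [IsTopologicalGroup G] [T2Space G],
      PseudoCompact G → MinimalGroup G → PropZm G → CompactLie G) := by
  refine ⟨?_, ?_, ?_⟩
  · intro G _ _ _ _ hps hmin hzm
    exact propZ_of hps hmin hzm
  · intro G _ _ _ _ hps hmin hzm
    exact propZ_of hps hmin.minimal hzm
  · intro G _ _ _ _ hps hmin hzm
    exact (compactLie_of hps hmin hzm).1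

end Pool.Agent.Results.MP_dc204c_gt.PseudocompactMinimalZm
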